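import Pool.Agent.H486.LP.Stm

/-!
# Conjugation of the Hecke sets (P11 of project LP)
-/

set_option autoImplicit false

open UpperHalfPlane MeasureTheory Metric ModularGroup CongruenceSubgroup
open scoped MatrixGroups ENNReal Modular Topology NNReal ComplexConjugate Real

namespace Pool.Agent.H297.LP

open Pool.Agent.H369R2 Pool.Agent.N799.DT Pool.Agent.H486.LF Pool.Agent.H486.LG
open Pool.Agent.H486.LP

/-- the image of an integral matrix in `SL(2, ℝ)` -/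
noncomputable def gR (g : SL(2, ℤ)) : SL(2, ℝ) :=
  Matrix.SpecialLinearGroup.map (Int.castRingHom ℝ) g

theorem gR_smul (g : SL(2, ℤ)) (z : ℍ) : gR g • z = g • z := by
  apply UpperHalfPlane.ext
  rw [coe_specialLinearGroup_apply, coe_specialLinearGroup_apply]
  rfl

theorem gR_val (g : SL(2, ℤ)) :
    ((gR g : SL(2, ℝ)) : Matrix (Fin 2) (Fin 2) ℝ) = (g : Mt).map (fun a : ℤ => (a : ℝ)) := rfl

theorem sQ_val (Q : ℕ) (A : Mt) (hQ : 0 < Q) (hA : A.det = (Q : ℤ) ^ 2) :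
    ((sQ Q A : SL(2, ℝ)) : Matrix (Fin 2) (Fin 2) ℝ) =
      ((Q : ℝ)⁻¹) • A.map (fun a : ℤ => (a : ℝ)) := by
  unfold sQ
  rw [dif_pos ⟨hQ, hA⟩]

theorem sQ_one (Q : ℕ) (A : Mt) (h : ¬ (0 < Q ∧ A.det = (Q : ℤ) ^ 2)) : sQ Q A = 1 := by
  unfold sQ
  rw [dif_neg h]

theorem det_gAh (g h : SL(2, ℤ)) (A : Mt) : ((g : Mt) * A * (h : Mt)).det = A.det := by
  rw [Matrix.det_mul, Matrix.det_mul, g.2, h.2, one_mul, mul_one]

theorem map_mul_real (A B : Mt) : (A * B).map (fun a : ℤ => (a : ℝ)) =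
    A.map (fun a : ℤ => (a : ℝ)) * B.map (fun a : ℤ => (a : ℝ)) := by
  ext i j
  simp [Matrix.mul_apply]

/-- `A / Q` for a product with integral matrices of determinant one -/
theorem sQ_gAh (g h : SL(2, ℤ)) (Q : ℕ) (A : Mt) (hQ : 0 < Q) (hA : A.det = (Q : ℤ) ^ 2) :
    sQ Q ((g : Mt) * A * (h : Mt)) = gR g * sQ Q A * gR h := by
  apply Subtype.ext
  rw [sQ_val Q _ hQ (by rw [det_gAh, hA])]
  have h1 : ((gR g * sQ Q A * gR h : SL(2, ℝ)) : Matrix (Fin 2) (Fin 2) ℝ) =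
      ((gR g : SL(2, ℝ)) : Matrix (Fin 2) (Fin 2) ℝ) *
        ((sQ Q A : SL(2, ℝ)) : Matrix (Fin 2) (Fin 2) ℝ) *
        ((gR h : SL(2, ℝ)) : Matrix (Fin 2) (Fin 2) ℝ) := rfl
  rw [h1, sQ_val Q A hQ hA, gR_val, gR_val, map_mul_real, map_mul_real]
  rw [Matrix.mul_smul, Matrix.smul_mul]

theorem sQ_mul (g : SL(2, ℤ)) (Q : ℕ) (A : Mt) (hQ : 0 < Q) (hA : A.det = (Q : ℤ) ^ 2) (z : ℍ) :
    sQ Q ((g : Mt) * A) • z = g • sQ Q A • z := by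
  have h := sQ_gAh g 1 Q A hQ hA
  have h1 : ((1 : SL(2, ℤ)) : Mt) = 1 := rfl
  have h2 : gR 1 = 1 := map_one _
  rw [h1, mul_one, h2, mul_one] at h
  rw [h, mul_smul, gR_smul]

theorem sQ_coe (Q : ℕ) (A : Mt) (hQ : 0 < Q) (hA : A.det = (Q : ℤ) ^ 2) (z : ℍ) :
    ((sQ Q A • z : ℍ) : ℂ) =
      ((A 0 0 : ℂ) * z + A 0 1) / ((A 1 0 : ℂ) * z + A 1 1) := by
  have hv := sQ_val Q A hQ hA
  have hij : ∀ i j, (sQ Q A : SL(2, ℝ)) i j = (Q : ℝ)⁻¹ * (A i j : ℝ) := by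
    intro i j
    have := congrFun (congrFun hv i) j
    simpa using this
  have hQ' : (Q : ℂ) ≠ 0 := by exact_mod_cast hQ.ne'
  rw [coe_specialLinearGroup_apply]
  simp only [hij, Algebra.algebraMap_self, RingHom.id_apply]
  push_cast
  have h1 : (Q : ℂ)⁻¹ * (A 0 0 : ℂ) * z + (Q : ℂ)⁻¹ * (A 0 1 : ℂ) =
      (Q : ℂ)⁻¹ * ((A 0 0 : ℂ) * z + (A 0 1 : ℂ)) := by ring
  have h2 : (Q : ℂ)⁻¹ * (A 1 0 : ℂ) * z + (Q : ℂ)⁻¹ * (A 1 1 : ℂ) =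
      (Q : ℂ)⁻¹ * ((A 1 0 : ℂ) * z + (A 1 1 : ℂ)) := by ring
  rw [h1, h2, mul_div_mul_left _ _ (inv_ne_zero hQ')]

theorem sQ_conj (g : SL(2, ℤ)) (Q : ℕ) (E : Mt) (z : ℍ) :
    sQ Q E • g • z = g • sQ Q (((g⁻¹ : SL(2, ℤ)) : Mt) * E * (g : Mt)) • z := by
  by_cases h : 0 < Q ∧ E.det = (Q : ℤ) ^ 2
  · rw [sQ_gAh g⁻¹ g Q E h.1 h.2]
    rw [mul_smul, mul_smul, gR_smul, gR_smul, smul_inv_smul]
  · rw [sQ_one Q E h, sQ_one Q _ (by rw [det_gAh]; exact h), one_smul, one_smul]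

theorem inv_g {k : ℍ → ℍ → ℝ≥0∞} (hk : InvR k) (g : SL(2, ℤ)) (z w : ℍ) :
    k (g • z) (g • w) = k z w := by
  rw [← gR_smul, ← gR_smul]
  exact hk (gR g) z w

theorem conj_conj (g : SL(2, ℤ)) (E : Mt) :
    (g : Mt) * (((g⁻¹ : SL(2, ℤ)) : Mt) * E * (g : Mt)) * ((g⁻¹ : SL(2, ℤ)) : Mt) = E := by
  have h1 : (g : Mt) * ((g⁻¹ : SL(2, ℤ)) : Mt) = 1 := by
    have : ((g * g⁻¹ : SL(2, ℤ)) : Mt) = 1 := by rw [mul_inv_cancel]; rfl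
    rw [← this]
    rfl
  calc (g : Mt) * (((g⁻¹ : SL(2, ℤ)) : Mt) * E * (g : Mt)) * ((g⁻¹ : SL(2, ℤ)) : Mt)
      = ((g : Mt) * ((g⁻¹ : SL(2, ℤ)) : Mt)) * E * ((g : Mt) * ((g⁻¹ : SL(2, ℤ)) : Mt)) := by
        simp only [Matrix.mul_assoc]
    _ = E := by rw [h1, one_mul, mul_one]

theorem conj_conj' (g : SL(2, ℤ)) (E : Mt) :
    ((g⁻¹ : SL(2, ℤ)) : Mt) * ((g : Mt) * E * ((g⁻¹ : SL(2, ℤ)) : Mt)) * (g : Mt) = E := by
  have h := conj_conj g⁻¹ E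
  rw [inv_inv] at h
  exact h

/-- the bijection `E ↦ g⁻¹ E g` -/
noncomputable def eqv (Γ : Subgroup SL(2, ℤ)) (N Q : ℕ) (g : SL(2, ℤ)) :
    Del Γ N Q ≃ DelC Γ N Q g where
  toFun E := ⟨((g⁻¹ : SL(2, ℤ)) : Mt) * (E : Mt) * (g : Mt), by
    show (g : Mt) * (((g⁻¹ : SL(2, ℤ)) : Mt) * (E : Mt) * (g : Mt)) * ((g⁻¹ : SL(2, ℤ)) : Mt) ∈
      Del Γ N Q
    rw [conj_conj]
    exact E.2⟩
  invFun E := ⟨(g : Mt) * (E : Mt) * ((g⁻¹ : SL(2, ℤ)) : Mt), E.2⟩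
  left_inv E := Subtype.ext (conj_conj g E)
  right_inv E := Subtype.ext (conj_conj' g E)

/-- P11 -/
theorem p11 : S_conj := by
  intro Γ N Q g k hk z
  rw [← (eqv Γ N Q g).tsum_eq (fun E : DelC Γ N Q g => k z (sQ Q (E : Mt) • z))]
  refine tsum_congr fun E => ?_
  rw [sQ_conj, inv_g hk]
  rfl

/-! ### the kernel `b2` -/

theorem bz_smul_real (R : ℝ) (γ : SL(2, ℝ)) (w z : ℍ) : bz R (γ • w) (γ • z) = bz R w z := by
  unfold bz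
  congr 1
  have : γ • z ∈ closedBall (γ • w) R ↔ z ∈ closedBall w R := by
    simp only [mem_closedBall, dist_smul]
  by_cases h : z ∈ closedBall w R
  · rw [Set.indicator_of_mem h, Set.indicator_of_mem (this.2 h)]; rfl
  · rw [Set.indicator_of_notMem h, Set.indicator_of_notMem (fun h' => h (this.1 h'))]

theorem b2_inv2 (r s : ℝ) : InvR (b2 r s) := by
  intro g z w
  unfold b2
  have h := (mp_real g).lintegral_comp (f := fun ζ => bz r (g • z) ζ * bz s (g • w) ζ)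
    ((measurable_bz r (g • z)).mul (measurable_bz s (g • w)))
  simp only [bz_smul_real] at h
  exact h.symm

theorem b2_inv (ρ : ℝ) : InvR (b2 ρ ρ) := b2_inv2 ρ ρ

end Pool.Agent.H297.LP
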